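import Mathlib
set_option autoImplicit false

namespace Pool.Agent.H.MP_f12303_co
open Finset

/-- up-boundary -/
def up {n : ℕ} (A : Finset (Fin n → ℤ)) : Finset ((Fin n → ℤ) × Fin n) :=
  (A ×ˢ univ).filter fun p => p.1 + Pi.single p.2 1 ∉ A

def sl {n : ℕ} (A : Finset (Fin (n + 1) → ℤ)) (t : ℤ) : Finset (Fin n → ℤ) :=
  (A.filter fun x => x 0 = t).image Fin.tail

theorem mem_sl {n : ℕ} {A : Finset (Fin (n + 1) → ℤ)} {t : ℤ} {y : Fin n → ℤ} :
    y ∈ sl A t ↔ (Fin.cons t y : Fin (n + 1) → ℤ) ∈ A := by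
  simp only [sl, mem_image, mem_filter]
  constructor
  · rintro ⟨x, ⟨h, rfl⟩, rfl⟩
    rwa [Fin.cons_self_tail]
  · exact fun h => ⟨_, ⟨h, rfl⟩, Fin.tail_cons _ _⟩

theorem top {n : ℕ} (A : Finset (Fin (n + 1) → ℤ)) (t : ℤ) : (sl A t).card ≤ (up A).card := by
  have ex : ∀ y : Fin n → ℤ, ∃ s : ℤ, y ∈ sl A t → y ∈ sl A s ∧ y ∉ sl A (s + 1) := fun y => by
    by_cases hy : y ∈ sl A t
    · obtain ⟨x, hx, m⟩ := exists_max_image (A.filter fun x => Fin.tail x = y) (fun x => x 0)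
        ⟨_, mem_filter.2 ⟨mem_sl.1 hy, Fin.tail_cons _ _⟩⟩
      obtain ⟨h1, rfl⟩ := mem_filter.1 hx
      refine ⟨x 0, fun _ => ⟨mem_sl.2 (by rwa [Fin.cons_self_tail]), fun h => ?_⟩⟩
      have := m _ (mem_filter.2 ⟨mem_sl.1 h, Fin.tail_cons _ _⟩)
      simp at this
    · exact ⟨0, fun h => absurd h hy⟩
  choose s hs using ex
  refine card_le_card_of_injOn (fun y => (Fin.cons (s y) y, 0)) (fun y hy => ?_) fun y _ y' _ h => ?_
  · refine mem_coe.2 (mem_filter.2 ⟨mem_product.2 ⟨mem_sl.1 (hs y hy).1, mem_univ _⟩,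
      fun h => (hs y hy).2 (mem_sl.2 ?_)⟩)
    convert h using 1
    ext i
    refine Fin.cases ?_ (fun i => ?_) i <;> simp
  · simpa using congrArg Fin.tail (Prod.mk.inj h).1

theorem iso (d : ℕ) : ∀ A : Finset (Fin (d + 1) → ℤ), A.Nonempty →
    (A.card : ℝ) ^ d ≤ ((up A).card : ℝ) ^ (d + 1) := by
  induction d with
  | zero =>
    rintro A ⟨x, hx⟩
    have := (card_pos.2 ⟨Fin.tail x, mem_sl.2 (by rwa [Fin.cons_self_tail])⟩).trans_le (top A (x 0))
    simpa using this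
  | succ d ih =>
    intro A _
    set T := A.image fun x => x 0
    have h1 : A.card = ∑ t ∈ T, (sl A t).card := by
      rw [card_eq_sum_card_fiberwise (f := fun x => x 0) (t := T) fun x hx => mem_image_of_mem _ hx]
      refine sum_congr rfl fun t _ => (card_image_of_injOn fun x hx y hy h => ?_).symm
      rw [← Fin.cons_self_tail x, ← Fin.cons_self_tail y, h, (mem_filter.1 hx).2, (mem_filter.1 hy).2]
    have h2 : ∑ t ∈ T, (up (sl A t)).card ≤ (up A).card := by
      rw [← card_sigma]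
      refine card_le_card_of_injOn (fun p => (Fin.cons p.1 p.2.1, p.2.2.succ)) (fun p hp => ?_) ?_
      · obtain ⟨a1, a2⟩ := mem_filter.1 (mem_sigma.1 hp).2
        refine mem_coe.2 (mem_filter.2 ⟨mem_product.2 ⟨mem_sl.1 (mem_product.1 a1).1, mem_univ _⟩,
          fun h => a2 (mem_sl.2 ?_)⟩)
        convert h using 1
        ext i
        refine Fin.cases ?_ (fun i => ?_) i <;> simp [Pi.single_apply]
      · rintro ⟨t, y, i⟩ - ⟨t', y', i'⟩ - h
        obtain ⟨a1, a2⟩ := Prod.mk.inj h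
        obtain ⟨rfl, rfl⟩ := Fin.cons_injective2.eq_iff.1 a1
        obtain rfl := Fin.succ_injective _ a2
        rfl
    set P : ℝ := ((up A).card : ℝ) with hP
    have P0 : 0 ≤ P := by positivity
    obtain ⟨w, w0, hw⟩ : ∃ w : ℝ, 0 ≤ w ∧ w ^ (d + 1) = P :=
      ⟨P ^ ((d + 1 : ℕ) : ℝ)⁻¹, by positivity, Real.rpow_inv_natCast_pow P0 (by omega)⟩
    have h3 : ∀ t, ((sl A t).card : ℝ) ≤ w * (up (sl A t)).card := fun t => by
      rcases (sl A t).eq_empty_or_nonempty with h | h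
      · rw [h, card_empty, Nat.cast_zero]
        positivity
      · refine le_of_pow_le_pow_left₀ (Nat.succ_ne_zero d) (by positivity) ?_
        rw [mul_pow, hw, pow_succ']
        exact mul_le_mul (by rw [hP]; exact_mod_cast top A t) (ih _ h) (by positivity) P0
    have h4 : (A.card : ℝ) ≤ w * P := by
      rw [h1, Nat.cast_sum]
      refine (sum_le_sum fun t _ => h3 t).trans ?_
      rw [← mul_sum, hP]
      exact mul_le_mul_of_nonneg_left (by exact_mod_cast h2) w0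
    refine (pow_le_pow_left₀ (by positivity) h4 _).trans (le_of_eq ?_)
    rw [mul_pow, hw]
    ring

noncomputable def cube {n : ℕ} (c : Fin n → ℤ) (r : ℕ) : Finset (Fin n → ℤ) :=
  Fintype.piFinset fun i => Icc (c i - r) (c i + r)

theorem mem_cube {n : ℕ} {c y : Fin n → ℤ} {r : ℕ} :
    y ∈ cube c r ↔ ∀ i, c i - r ≤ y i ∧ y i ≤ c i + r := by
  simp [cube]

theorem grow (d : ℕ) (V : ℕ → ℕ) (h0 : 1 ≤ V 0) (hm : ∀ r, V r ≤ V (r + 1))
    (h : ∀ r, (V r : ℝ) ^ d ≤ (2 * ((V (r + 1) : ℝ) - V r)) ^ (d + 1)) (r : ℕ) :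
    (1 + r * (1 / ((d + 1) * 2 ^ (d + 1)) : ℝ)) ^ (d + 1) ≤ V r := by
  induction r with
  | zero => simpa using h0
  | succ r ih =>
    set e : ℝ := 1 / ((d + 1) * 2 ^ (d + 1)) with he
    have e0 : 0 < e := by positivity
    have e2 : e * ((d + 1) * 2 ^ (d + 1)) = 1 := by
      rw [he]
      field_simp
    have e1 : e ≤ 1 := by
      have : (1 : ℝ) ≤ (d + 1) * 2 ^ (d + 1) :=
        one_le_mul_of_one_le_of_one_le (by linarith [(Nat.cast_nonneg d : (0 : ℝ) ≤ d)])
          (one_le_pow₀ one_le_two)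
      nlinarith
    set s : ℝ := 1 + r * e with hs
    have s1 : 1 ≤ s := by
      have : 0 ≤ r * e := by positivity
      linarith
    have m : (V r : ℝ) ≤ V (r + 1) := by exact_mod_cast hm r
    have h1 : s ^ d ≤ 2 * ((V (r + 1) : ℝ) - V r) := by
      refine le_of_pow_le_pow_left₀ (Nat.succ_ne_zero d) (by linarith) (le_trans ?_ (h r))
      rw [← pow_mul, mul_comm, pow_mul]
      exact pow_le_pow_left₀ (by positivity) ih _
    have h2 := (le_abs_self _).trans (abs_pow_sub_pow_le (s + e) s (d + 1))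
    rw [add_sub_cancel_left, abs_of_pos e0, abs_of_pos (by linarith), abs_of_pos (by linarith),
      max_eq_left (by linarith), Nat.add_sub_cancel] at h2
    have h3 : (s + e) ^ d ≤ (2 * s) ^ d := pow_le_pow_left₀ (by linarith) (by linarith) _
    have h4 := mul_le_mul_of_nonneg_left h3 (by positivity : 0 ≤ e * (d + 1 : ℕ))
    rw [show 1 + ((r + 1 : ℕ) : ℝ) * e = s + e by push_cast; ring]
    have h5 : e * (d + 1 : ℕ) * (2 * s) ^ d = e * ((d + 1) * 2 ^ (d + 1)) * s ^ d / 2 := by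
      push_cast
      ring
    rw [h5, e2] at h4
    linarith

theorem ivt (p : ℤ → Prop) (a b l u : ℤ) (ha : p a) (hb : ¬ p b) (h1 : l ≤ a ∧ a ≤ u)
    (h2 : l ≤ b ∧ b ≤ u) : ∃ s, (l ≤ s ∧ s ≤ u) ∧ p s ∧ (¬ p (s + 1) ∨ ¬ p (s - 1)) := by
  rcases le_total a b with h | h
  · obtain ⟨s, ⟨s1, s2, s3⟩, m⟩ := Int.exists_greatest_of_bdd (P := fun s => a ≤ s ∧ s ≤ b ∧ p s)
      ⟨b, fun _ h => h.2.1⟩ ⟨a, le_rfl, h, ha⟩
    have : s ≠ b := fun h => hb (h ▸ s3)
    exact ⟨s, by omega, s3, Or.inl fun h => by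
      have := m (s + 1) ⟨by omega, by omega, h⟩
      omega⟩
  · obtain ⟨s, ⟨s1, s2, s3⟩, m⟩ := Int.exists_least_of_bdd (P := fun s => b ≤ s ∧ s ≤ a ∧ p s)
      ⟨b, fun _ h => h.1⟩ ⟨a, h, le_rfl, ha⟩
    have : s ≠ b := fun h => hb (h ▸ s3)
    exact ⟨s, by omega, s3, Or.inr fun h => by
      have := m (s - 1) ⟨by omega, by omega, h⟩
      omega⟩

theorem hyb {n : ℕ} (c : Fin n → ℤ) (r : ℕ) (A B D : Finset (Fin n → ℤ)) (M : Set (Fin n → ℤ))
    (hA : ∀ x ∈ A, x ∈ cube c r ∧ x ∈ M) (hB : ∀ x ∈ B, x ∈ cube c r ∧ x ∉ M)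
    (hD : ∀ x ∈ cube c r, x ∈ M → ∀ i, (Function.update x i (x i + 1) ∉ M ∨
      Function.update x i (x i - 1) ∉ M) → x ∈ D) :
    A.card * B.card ≤ n * D.card * (2 * r + 1) ^ (n + 1) := by
  have ex : ∀ p : (Fin n → ℤ) × (Fin n → ℤ), ∃ w : Fin n → ℤ, ∃ k : ℕ, p ∈ A ×ˢ B → k < n ∧ w ∈ D ∧
      ∀ i : Fin n, (i.1 < k → w i = p.2 i) ∧ (k < i.1 → w i = p.1 i) := by
    rintro ⟨u, v⟩
    by_cases hp : (u, v) ∈ A ×ˢ B
    swap
    · exact ⟨0, 0, fun h => absurd h hp⟩
    obtain ⟨u1, u2⟩ := hA u (mem_product.1 hp).1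
    obtain ⟨v1, v2⟩ := hB v (mem_product.1 hp).2
    rw [mem_cube] at u1 v1
    have ex : ∃ j : ℕ, (fun i : Fin n => if i.1 < j then v i else u i) ∉ M :=
      ⟨n, by simpa using v2⟩
    classical
    obtain ⟨k, hk⟩ : ∃ k, Nat.find ex = k + 1 := ⟨Nat.find ex - 1, by
      have : Nat.find ex ≠ 0 := fun h => by simpa [h, u2] using Nat.find_spec ex
      omega⟩
    have k1 : k < n := by
      have := Nat.find_min' ex (m := n) (by simpa using v2)
      omega
    have k2 := Nat.find_spec ex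
    have k3 := not_not.1 (Nat.find_min ex (show k < Nat.find ex by omega))
    rw [hk] at k2
    obtain ⟨s, s1, s2, s3⟩ := ivt (fun s => Function.update
      (fun i : Fin n => if i.1 < k then v i else u i) ⟨k, k1⟩ s ∈ M) (u ⟨k, k1⟩) (v ⟨k, k1⟩) _ _
      (by
        convert k3 using 1
        exact Function.update_eq_self_iff.2 (by simp))
      (by
        convert k2 using 2
        ext i
        by_cases h : i = ⟨k, k1⟩
        · simp [h]
        · have : i.1 ≠ k := fun h' => h (Fin.ext h')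
          rw [Function.update_of_ne h]
          split_ifs <;> first | rfl | omega) (u1 _) (v1 _)
    refine ⟨_, k, fun _ => ⟨k1, hD _ (mem_cube.2 fun i => ?_) s2 ⟨k, k1⟩ (by simpa using s3),
      fun i => ⟨fun h => ?_, fun h => ?_⟩⟩⟩
    · by_cases h : i = ⟨k, k1⟩
      · simpa [h] using s1
      · rw [Function.update_of_ne h]
        split_ifs
        exacts [v1 i, u1 i]
    · rw [Function.update_of_ne fun h' => by simp [h'] at h, if_pos h]
    · rw [Function.update_of_ne fun h' => by simp [h'] at h, if_neg (by omega)]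
  choose w k H using ex
  have hc : (cube c r).card = (2 * r + 1) ^ n := by
    rw [cube, Fintype.card_piFinset, prod_congr rfl fun i _ => show _ = 2 * r + 1 by
      rw [Int.card_Icc]; omega]
    simp
  have := card_le_card_of_injOn (s := A ×ˢ B)
    (t := ((range n ×ˢ D) ×ˢ cube c r) ×ˢ Icc (-r : ℤ) r)
    (fun p => (((k p, w p), fun i => if i.1 < k p then p.1 i else p.2 i),
      if h : k p < n then p.1 ⟨k p, h⟩ - c ⟨k p, h⟩ else 0)) (fun p hp => by
      obtain ⟨a1, a2, -⟩ := H p hp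
      have u1 := mem_cube.1 (hA _ (mem_product.1 hp).1).1
      have v1 := mem_cube.1 (hB _ (mem_product.1 hp).2).1
      refine mem_coe.2 (mem_product.2 ⟨mem_product.2 ⟨mem_product.2 ⟨mem_range.2 a1, a2⟩,
        mem_cube.2 fun i => ?_⟩, ?_⟩)
      · dsimp only
        split_ifs
        exacts [u1 i, v1 i]
      · have := u1 ⟨k p, a1⟩
        simp only [dif_pos a1, mem_Icc]
        omega) (fun p hp q hq h => by
      obtain ⟨a1, -, a3⟩ := H p hp
      obtain ⟨b1, -, b3⟩ := H q hq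
      simp only [Prod.mk.injEq, dif_pos a1, dif_pos b1] at h
      obtain ⟨⟨⟨h1, h2⟩, h3⟩, h4⟩ := h
      simp only [← h1, ← h2] at b3 h3 h4
      refine Prod.ext (funext fun i => ?_) (funext fun i => ?_)
      · rcases lt_trichotomy i.1 (k p) with h | h | h
        · simpa [h] using congrFun h3 i
        · obtain rfl : i = ⟨k p, a1⟩ := Fin.ext h
          omega
        · rw [← (a3 i).2 h, ← (b3 i).2 h]
      · by_cases h : i.1 < k p
        · rw [← (a3 i).1 h, ← (b3 i).1 h]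
        · simpa [h] using congrFun h3 i)
  rw [card_product, card_product, card_product, card_product, card_range, hc, Int.card_Icc,
    show (r + 1 - -r : ℤ).toNat = 2 * r + 1 by omega] at this
  rwa [pow_succ, ← mul_assoc]

end Pool.Agent.H.MP_f12303_co
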